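import Pool.Agent.Lib.MP_1ae3da_al.J.Gd
import Pool.Agent.Lib.MP_1ae3da_al.Z.BW

/-! Split Tits systems pass to quotients by central `p'`-subgroups. -/

namespace Pool.Agent.Lib.MP_1ae3da_al.JM

open SLI

variable {p r k : ℕ} {X Y : Type} [Group X] [Group Y] [Finite X] {U : Sylow r X} {N : Subgroup X}
  {n : ℕ → X} [hp : Fact p.Prime] [hr : Fact r.Prime]

omit [Finite X] hr in
lemma BV.q_one (h : BV p U N) {u : X} (hu : u ∈ U) (hc : ∀ t ∈ Tor U N, t * u = u * t) :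
    u = 1 := by
  by_contra h1
  have h2 := h.orb u hu h1
  rw [Subgroup.relIndex_eq_one.2 fun t ht => Subgroup.mem_centralizer_singleton_iff.2 (hc t ht)]
    at h2
  exact hp.out.one_lt.ne' (Nat.dvd_one.1 h2)

omit hr in
lemma BV.q_cen (h : BV p U N) : Subgroup.center X ≤ Tor U N := by
  intro z hz
  obtain ⟨u, hu, m, hm, v, hv, e⟩ := h.bru z
  have hc := Subgroup.mem_center_iff.1 hz
  have e1 : m = z * (v * u)⁻¹ := by
    rw [mul_inv_rev, ← mul_assoc, ← hc, e]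
    group
  have hw : (v * u)⁻¹ ∈ U := inv_mem (mul_mem hv hu)
  have hT : m ∈ Tor U N :=
    ⟨hm, e1 ▸ mul_mem (Subgroup.center_le_normalizer _ hz) (Subgroup.le_normalizer hw)⟩
  have h1 := h.q_one hw fun t ht => by
    have := h.ab t ht m hT
    rw [e1, ← mul_assoc, hc, mul_assoc, mul_assoc] at this
    exact mul_left_cancel this
  rw [h1, mul_one] at e1
  exact e1 ▸ hT

theorem BV.qmap (h : BV p U N) {π : X →* Y} (hπ : Function.Surjective π)
    (hk : π.ker ≤ Subgroup.center X) (hk' : ∀ x ∈ π.ker, (∃ c, x ^ p ^ c = 1) → x = 1) :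
    BV p (U.mapSurjective hπ) (N.map π) := by
  have hT := BN.tor_map (U := U) (N := N) hπ hk
  have hkT : π.ker ≤ Tor U N := hk.trans h.q_cen
  refine ⟨h.ne, ?_, ?_, fun y => ?_, ?_, ?_⟩
  · rw [hT]
    rintro _ ⟨x, hx, rfl⟩ _ ⟨y, hy, rfl⟩
    rw [← map_mul, ← map_mul, h.ab x hx y hy]
  · rw [hT]
    exact (Subgroup.map_mono h.nrm).trans (Subgroup.le_normalizer_map π)
  · obtain ⟨x, rfl⟩ := hπ y
    obtain ⟨u, hu, n, hn, v, hv, e⟩ := h.bru x
    exact ⟨π u, ⟨u, hu, rfl⟩, π n, ⟨n, hn, rfl⟩, π v, ⟨v, hv, rfl⟩, by rw [e, map_mul, map_mul]⟩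
  · rintro _ ⟨u, hu, rfl⟩ h1
    have h2 := h.orb u hu fun e => h1 (e ▸ map_one π)
    have h3 : (Subgroup.centralizer {π u}).comap π ⊓ Tor U N =
        Subgroup.centralizer {u} ⊓ Tor U N := by
      ext t
      refine and_congr_left fun ht => ?_
      change π t ∈ Subgroup.centralizer {π u} ↔ t ∈ Subgroup.centralizer {u}
      rw [Subgroup.mem_centralizer_singleton_iff, Subgroup.mem_centralizer_singleton_iff]
      refine ⟨fun e => ?_, fun e => by rw [← map_mul, e, map_mul]⟩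
      have h4 : t * u * t⁻¹ * u⁻¹ = 1 := h.q_one
        (mul_mem ((Subgroup.mem_normalizer_iff.mp ht.2 u).mp hu) (inv_mem hu)) fun s _ =>
          Subgroup.mem_center_iff.1 (hk (by
            rw [MonoidHom.mem_ker, map_mul, map_mul, map_mul, map_inv, map_inv, e]; group)) s
      rwa [mul_inv_eq_one, mul_inv_eq_iff_eq_mul] at h4
    rw [hT, ← Subgroup.relIndex_comap, ← Subgroup.inf_relIndex_right (Subgroup.comap _ _), h3,
      Subgroup.inf_relIndex_right]
    exact h2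
  · rintro _ ⟨m, hm, rfl⟩ hq
    rw [hT] at hq ⊢
    refine ⟨m, h.quad m hm fun d hd ⟨c, hc⟩ => ?_, rfl⟩
    have key : ∀ t ∈ h.D, t * m * t⁻¹ * m⁻¹ ∈ h.D := fun t ht => by
      obtain ⟨a, l, b⟩ := h.D.inv_mem ht
      rw [mul_assoc t, mul_assoc t]
      exact mul_mem ht ⟨(Subgroup.mem_normalizer_iff.mp (h.nrm hm) _).mp a, l, by
        rw [conj_pow, b, mul_one, mul_inv_cancel]⟩
    have h1 := hq (π d) ⟨d, hd, rfl⟩ ⟨c, by rw [← map_pow, hc, map_one]⟩
    have h2 := hk' _ (by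
      rw [MonoidHom.mem_ker, map_mul, map_mul, map_mul, map_inv, map_inv]
      simp only [map_mul, map_inv]
      rw [h1.eq]
      group) (key _ (key d ⟨hd, c, hc⟩)).2
    rwa [mul_inv_eq_one, mul_inv_eq_iff_eq_mul] at h2

theorem TB.qmap (h : TB p k U N n) {π : X →* Y} (hπ : Function.Surjective π)
    (hk : π.ker ≤ Subgroup.center X) (hk' : ∀ x ∈ π.ker, (∃ c, x ^ p ^ c = 1) → x = 1) :
    TB p k (U.mapSurjective hπ) (N.map π) fun i => π (n i) := by
  have hT := BN.tor_map (U := U) (N := N) hπ hk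
  have hkT : π.ker ≤ Tor U N := hk.trans h.v.q_cen
  have v := h.v.qmap hπ hk hk'
  have mT : ∀ t ∈ Tor U N, π t ∈ Tor (U.mapSurjective hπ) (N.map π) := fun t ht =>
    hT ▸ ⟨t, ht, rfl⟩
  refine ⟨v, ⟨inf_le_left, v.nrm, fun i hi => ⟨_, h.w.mem i hi, rfl⟩,
    fun i hi => map_mul π _ _ ▸ mT _ (h.w.sq i hi), ⟨fun i j a b => ?_, fun i a b => ?_, fun a => ?_⟩,
    ?_, ?_⟩, h.k3, ?_, ?_, fun i hi => ?_⟩
  · simpa only [map_mul] using congrArg π (h.w.br.1 i j a b)
  · simpa only [map_mul] using congrArg π (h.w.br.2.1 i a b)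
  · simpa only [map_mul] using congrArg π (h.w.br.2.2 a)
  · refine (Subgroup.map_mono h.w.gen).trans ?_
    rw [MonoidHom.map_closure, Set.image_union, Set.image_image, hT]
    rfl
  · rw [hT, Subgroup.relIndex_map_map, sup_of_le_left hkT, sup_of_le_left (hkT.trans inf_le_left),
      h.w.card]
  · rintro i hi _ ⟨m, hm, rfl⟩ _ ⟨u, hu, rfl⟩
    obtain ⟨a, ha, t, ht, b, hb, e⟩ := h.tits i hi m hm u hu
    exact ⟨π a, ⟨a, ha, rfl⟩, π t, mT t ht, π b, ⟨b, hb, rfl⟩,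
      e.imp (fun e => by simpa only [map_mul] using congrArg π e)
        fun e => by simpa only [map_mul] using congrArg π e⟩
  · rintro i h0 hi _ ⟨u, hu, rfl⟩
    refine (h.one i h0 hi u hu).imp (fun e => ⟨_, e, by simp only [map_mul, map_inv]⟩) ?_
    rintro ⟨t, ht, a, ha, b, hb, e⟩
    exact ⟨π t, mT t ht, π a, ⟨a, ha, rfl⟩, π b, ⟨b, hb, rfl⟩,
      by simpa only [map_mul, map_inv] using congrArg π e⟩
  · simpa only [map_mul, map_inv] using (h.cen i hi).map π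

/-- every Sylow `p`-subgroup of the quotient lies in the `N` of such a system. -/
theorem TB.qall (h : TB p k U N n) (h0 : ∃ R : Sylow p X, (R : Subgroup X) ≤ N) {π : X →* Y}
    (hπ : Function.Surjective π) (hk : π.ker ≤ Subgroup.center X)
    (hk' : ∀ x ∈ π.ker, (∃ c, x ^ p ^ c = 1) → x = 1) (R : Sylow p Y) :
    ∃ (U' : Sylow r Y) (N' : Subgroup Y) (n' : ℕ → Y), TB p k U' N' n' ∧ (R : Subgroup Y) ≤ N' := by
  have : Finite Y := Finite.of_surjective π hπ
  obtain ⟨R₀, hR⟩ := h0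
  obtain ⟨g, hg⟩ := MulAction.exists_smul_eq Y (R₀.mapSurjective hπ) R
  let ρ : X →* Y := (MulAut.conj g).toMonoidHom.comp π
  have hρ : Function.Surjective ρ := (MulAut.conj g).surjective.comp hπ
  have hkρ : ρ.ker = π.ker := by
    ext x
    exact map_eq_one_iff (MulAut.conj g) (MulAut.conj g).injective
  refine ⟨U.mapSurjective hρ, N.map ρ, _, h.qmap hρ (hkρ ▸ hk) (hkρ ▸ hk'), ?_⟩
  have : (R : Subgroup Y) = (R₀ : Subgroup X).map ρ := by
    rw [← hg, ← Subgroup.map_map]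
    rfl
  exact this ▸ Subgroup.map_mono hR

end Pool.Agent.Lib.MP_1ae3da_al.JM
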