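import Pool.Agent.Lib.MP_1ae3da_al.I.Lv

/-! The braid relations. -/

namespace Pool.Agent.Lib.MP_1ae3da_al.JI

open Matrix SpecialLinearGroup SLI JM

variable {F : Type} [Field F] {m : ℕ}

lemma mon_comm {g g' : SLm m F} {σ σ' : Equiv.Perm (Fin m)} (h : IsMon g.1 σ) (h' : IsMon g'.1 σ')
    (hc : ∀ i, (σ i = i ∧ σ (σ' i) = σ' i ∧ g.1 i i = g.1 (σ' i) (σ' i)) ∨
      (σ' i = i ∧ σ' (σ i) = σ i ∧ g'.1 i i = g'.1 (σ i) (σ i))) : Commute g g' := by
  apply Subtype.ext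
  ext i j
  rw [vmul, vmul, mon_l h, mon_l h']
  rcases hc i with ⟨a, b, c⟩ | ⟨a, b, c⟩
  · rw [a]
    by_cases e : j = σ' i
    · rw [e, c, mul_comm]
    · rw [h' i j e, h _ j (by rwa [b]), mul_zero, mul_zero]
  · rw [a]
    by_cases e : j = σ i
    · rw [e, c, mul_comm]
    · rw [h i j e, h' _ j (by rwa [b]), mul_zero, mul_zero]

lemma wm_sq {a b : Fin m} (e : a ≠ b) : wm e (1 : F) * wm e 1 = el e (-1) := by
  apply Subtype.ext
  simp only [vmul, wm_E e one_ne_zero, el_E, inv_one, one_smul, mul_add, add_mul, mul_sub, sub_mul,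
    mul_one, one_mul, single_mul_single_same, single_mul_single_of_ne _ _ _ _ e,
    single_mul_single_of_ne _ _ _ _ e.symm, Units.val_neg, Units.val_one, inv_neg]
  module

lemma wm_far {a b c d : Fin m} (e : a ≠ b) (e' : c ≠ d) (h1 : a ≠ c) (h2 : a ≠ d) (h3 : b ≠ c)
    (h4 : b ≠ d) : wm e (1 : F) * wm e' 1 = wm e' 1 * wm e 1 := by
  apply Subtype.ext
  simp only [vmul, wm_E _ one_ne_zero, inv_one, one_smul, mul_add, add_mul, mul_sub, sub_mul,
    mul_one, one_mul, single_mul_single_of_ne _ _ _ _ h1, single_mul_single_of_ne _ _ _ _ h2,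
    single_mul_single_of_ne _ _ _ _ h3, single_mul_single_of_ne _ _ _ _ h4,
    single_mul_single_of_ne _ _ _ _ h1.symm, single_mul_single_of_ne _ _ _ _ h2.symm,
    single_mul_single_of_ne _ _ _ _ h3.symm, single_mul_single_of_ne _ _ _ _ h4.symm]
  abel

lemma wm_braid {a b c : Fin m} (e : a ≠ b) (e' : b ≠ c) (h : a ≠ c) :
    wm e (1 : F) * wm e' 1 * wm e 1 = wm e' 1 * wm e 1 * wm e' 1 := by
  have k1 : (wm e (1 : F) * wm e' 1).1 = 1 - single a a (1 : F) - single b b (1 : F) -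
      single c c (1 : F) + single a c (1 : F) - single b a (1 : F) - single c b (1 : F) := by
    simp only [vmul, wm_E _ one_ne_zero, inv_one, one_smul, mul_add, add_mul, mul_sub, sub_mul,
      mul_one, one_mul, single_mul_single_same, single_mul_single_of_ne _ _ _ _ e,
      single_mul_single_of_ne _ _ _ _ e', single_mul_single_of_ne _ _ _ _ h]
    abel
  apply Subtype.ext
  rw [mul_assoc (wm e' 1), vmul, vmul (wm e' 1), k1]
  simp only [wm_E _ one_ne_zero, inv_one, one_smul, mul_add, add_mul, mul_sub, sub_mul,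
    mul_one, one_mul, single_mul_single_same, single_mul_single_of_ne _ _ _ _ e,
    single_mul_single_of_ne _ _ _ _ e',
    single_mul_single_of_ne _ _ _ _ e.symm, single_mul_single_of_ne _ _ _ _ e'.symm,
    single_mul_single_of_ne _ _ _ _ h.symm]
  abel

lemma bd_ne [NeZero m] {i j : ℕ} (hi : i < m / 2) (hj : j < m / 2) (e : i ≠ j) :
    ps m i ≠ ps m j := fun c => by
  have := congrArg Fin.val c
  rw [ps_val, ps_val] at this
  omega

lemma bd_rev [NeZero m] {i j : ℕ} (hi : i < m / 2) : ps m i ≠ (ps m j).rev := fun c => by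
  have := congrArg Fin.val c
  rw [Fin.val_rev, ps_val, ps_val] at this
  omega

lemma bd_fix [NeZero m] {i j : ℕ} (hi : i + 1 < m / 2) (hj : j < m / 2) (h1 : j ≠ i)
    (h2 : j ≠ i + 1) : sw m (i + 1) (ps m j) = ps m j := by
  rw [sw, Equiv.Perm.mul_apply, Equiv.swap_apply_of_ne_of_ne (bd_rev hj) (bd_rev hj),
    Equiv.swap_apply_of_ne_of_ne (bd_ne hj hi h2) (bd_ne hj (by omega) h1)]

namespace Ins
variable [NeZero m] {φ : F →+* F} {η : F} {z : Fˣ} {H : Subgroup (SLm m F)} {w : SLm m F}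
  (h : Ins φ η z H w)
include h

lemma bd_comm {g : SLm m F} {τ : Equiv.Perm (Fin m)} (hg : IsMon g.1 τ) (hτ : τ ∈ CR m)
    (h0 : τ (ps m 0) = ps m 0) (h1 : g.1 (ps m 0) (ps m 0) = g.1 (ps m 0).rev (ps m 0).rev) :
    Commute g (h.fm.nn w 0) := by
  have h0' : τ (ps m 0).rev = (ps m 0).rev := by rw [mem_CR.1 hτ, h0]
  have mid : ∀ x, τ x ≠ x → x ≠ x.rev := fun x hx e =>
    hx (mid_eq (by rw [← mem_CR.1 hτ, ← e]) e)
  refine mon_comm hg h.w_mon fun i => ?_
  by_cases c1 : i = ps m 0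
  · rw [c1, sw, Equiv.swap_apply_left]
    exact .inl ⟨h0, h0', h1⟩
  by_cases c2 : i = (ps m 0).rev
  · rw [c2, sw, Equiv.swap_apply_right]
    exact .inl ⟨h0', h0, h1.symm⟩
  have d1 : τ i ≠ ps m 0 := fun e => c1 (τ.injective (e.trans h0.symm))
  have d2 : τ i ≠ (ps m 0).rev := fun e => c2 (τ.injective (e.trans h0'.symm))
  refine .inr ⟨Equiv.swap_apply_of_ne_of_ne c1 c2, Equiv.swap_apply_of_ne_of_ne d1 d2, ?_⟩
  by_cases c : τ i = i
  · rw [c]
  · exact (h.w_one i (mid i c) c1 c2).trans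
      (h.w_one _ (mid _ fun e => c (τ.injective e)) d1 d2).symm

lemma sq_comm : Commute (h.fm.nn w 1 * h.fm.nn w 1) (h.fm.nn w 0) := by
  have k3 := h.k3
  have k1 : 0 + 1 < m / 2 := by omega
  have hL := wm_LH (F := F) (ps_ne k1) (ps_lt (by omega) _) (ps_lt (by omega) _) 1
  have e : h.fm.nn w 1 * h.fm.nn w 1 = h.fm.lam (SLI.el (ps_ne k1) (-1)) := by
    rw [← wm_sq, h.fm.lam_mul hL hL, ← h.fm.nn_succ w k1]
  have hm := el_mon (F := F) (ps_ne k1) (-1)
  have d : ∀ a, (SLI.el (F := F) (ps_ne k1) (-1)).1 a a = 1 ∨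
      (SLI.el (F := F) (ps_ne k1) (-1)).1 a a = -1 := fun a => by
    rw [el_val, diagonal_apply_eq]
    split_ifs <;> simp
  have t : ∀ a, (h.fm.lam (SLI.el (ps_ne k1) (-1))).1 a a =
      (SLI.el (F := F) (ps_ne k1) (-1)).1 a a *
        (SLI.el (F := F) (ps_ne k1) (-1)).1 a.rev a.rev := fun a => by
      have := th_dg φ h.fm.ep_ne hm (a := a) rfl
      rw [Fm.lam, vmul, mon_dg hm _ rfl]
      congr 1
      rcases d a.rev with c | c
      · rw [c, map_one, mul_one] at this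
        rw [c, this]
      · rw [c, map_neg, map_one, mul_neg, mul_one, neg_eq_iff_eq_neg] at this
        rw [c, this]
  refine h.bd_comm (τ := 1) ?_ (one_mem _) rfl ?_
  · rw [← sw_sq k1]
    exact mon_mul (h.nn_mon k1) (h.nn_mon k1)
  · rw [e, t, t, Fin.rev_rev, mul_comm]

lemma conj_comm : Commute (h.fm.nn w 1 * h.fm.nn w 0 * (h.fm.nn w 1)⁻¹) (h.fm.nn w 0) := by
  have k3 := h.k3
  have k0 : 0 < m / 2 := by omega
  have k1 : 1 < m / 2 := by omega
  have s1 : sw m 1 (ps m 0) = ps m 1 := by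
    rw [sw, Equiv.Perm.mul_apply, Equiv.swap_apply_of_ne_of_ne (bd_rev k0) (bd_rev k0),
      Equiv.swap_apply_right]
  have n1 : ps m 1 ≠ ps m 0 := bd_ne k1 k0 one_ne_zero
  have dg : ∀ x, (h.fm.nn w 1 * h.fm.nn w 0 * (h.fm.nn w 1)⁻¹).1 x x =
      w.1 (sw m 1 x) (sw m 1 x) := fun x => by
    have := conj_dg (mon_inv (h.nn_mon k1)) (h.fm.nn w 0) (sw m 1 x)
    rwa [inv_inv, Equiv.Perm.inv_eq_iff_eq.2 rfl] at this
  refine h.bd_comm (mon_mul (mon_mul (h.nn_mon k1) (h.nn_mon k0)) (mon_inv (h.nn_mon k1)))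
    (mul_mem (inv_mem (sw_cen k1)) (mul_mem (sw_cen k0) (sw_cen k1))) ?_ ?_
  · rw [Equiv.Perm.mul_apply, Equiv.Perm.mul_apply, s1, Equiv.Perm.inv_eq_iff_eq, s1]
    exact Equiv.swap_apply_of_ne_of_ne n1 (bd_rev k1)
  · rw [dg, dg, mem_CR.1 (sw_cen k1), s1, h.w_one _ (bd_rev k1) n1 (bd_rev k1),
      h.w_one _ (by rw [Fin.rev_rev]; exact (bd_rev k1).symm) (bd_rev k0).symm
        (Fin.rev_injective.ne n1)]

lemma nn_br : Br (m / 2) (h.fm.nn w) := by
  have k3 := h.k3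
  have k0 : 0 < m / 2 := by omega
  have hL : ∀ {i : ℕ} (hi : i + 1 < m / 2), wm (ps_ne hi) (1 : F) ∈ LH m F := fun hi =>
    wm_LH _ (ps_lt (by omega) _) (ps_lt (by omega) _) 1
  refine ⟨fun i j h1 h2 => ?_, fun i h0 h1 => ?_, fun _ => ?_⟩
  · obtain ⟨j, rfl⟩ : ∃ l, j = l + 1 := ⟨j - 1, by omega⟩
    rcases i with _ | i
    · have f := bd_fix h2 k0 (by omega) (by omega)
      refine (h.bd_comm (h.nn_mon h2) (sw_cen h2) f ?_).eq.symm
      rw [h.nn_one h2 f (by omega),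
        h.nn_one h2 (by rw [mem_CR.1 (sw_cen h2), f]) (by omega)]
    · have hi : i + 1 < m / 2 := by omega
      rw [h.fm.nn_succ w hi, h.fm.nn_succ w h2, ← h.fm.lam_mul (hL hi) (hL h2),
        ← h.fm.lam_mul (hL h2) (hL hi), wm_far _ _ (bd_ne hi h2 (by omega))
          (bd_ne hi (by omega) (by omega)) (bd_ne (by omega) h2 (by omega))
          (bd_ne (by omega) (by omega) (by omega))]
  · obtain ⟨i, rfl⟩ : ∃ l, i = l + 1 := ⟨i - 1, by omega⟩
    have hi : i + 1 < m / 2 := by omega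
    rw [h.fm.nn_succ w hi, h.fm.nn_succ w h1, ← h.fm.lam_mul (hL hi) (hL h1),
      ← h.fm.lam_mul (hL h1) (hL hi), ← h.fm.lam_mul (mul_mem (hL hi) (hL h1)) (hL hi),
      ← h.fm.lam_mul (mul_mem (hL h1) (hL hi)) (hL h1),
      wm_braid (ps_ne h1) (ps_ne hi) (bd_ne h1 (by omega) (by omega))]
  · have := (h.conj_comm.mul_left h.sq_comm).eq
    rw [mul_assoc _ (h.fm.nn w 1)⁻¹, inv_mul_cancel_left] at this
    rw [this]
    simp only [mul_assoc]

end Ins

end Pool.Agent.Lib.MP_1ae3da_al.JI
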