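import Pool.Agent.Lib.MP_1ae3da_al.Z.Cl9
import Pool.Agent.Lib.MP_1ae3da_al.J.Gd

/-! Classical groups as split Tits systems of type `B`: definitions. -/

namespace Pool.Agent.Lib.MP_1ae3da_al.JI

open Matrix SpecialLinearGroup SLI JM

variable {F : Type} [Field F] {m : ℕ}

/-- the position number `i`, counted from the middle. -/
def ps (m : ℕ) [NeZero m] (i : ℕ) : Fin m := ⟨m / 2 - 1 - i, by have := NeZero.pos m; omega⟩

lemma ps_val [NeZero m] (i : ℕ) : (ps m i : ℕ) = m / 2 - 1 - i := rfl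

lemma ps_lt [NeZero m] (hm : 2 ≤ m) (i : ℕ) : ps m i < (ps m i).rev := by
  rw [Fin.lt_def, Fin.val_rev, ps_val]
  omega

lemma ps_ne [NeZero m] {i : ℕ} (hi : i + 1 < m / 2) : ps m (i + 1) ≠ ps m i := fun e => by
  have := congrArg Fin.val e
  rw [ps_val, ps_val] at this
  omega

/-- the simple reflections. -/
def sw (m : ℕ) [NeZero m] : ℕ → Equiv.Perm (Fin m)
  | 0 => Equiv.swap (ps m 0) (ps m 0).rev
  | i + 1 => Equiv.swap (ps m (i + 1)) (ps m i) * Equiv.swap (ps m (i + 1)).rev (ps m i).rev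

/-- the Weyl group. -/
abbrev CR (m : ℕ) : Subgroup (Equiv.Perm (Fin m)) := Subgroup.centralizer {Fin.revPerm}

lemma mem_CR {σ : Equiv.Perm (Fin m)} : σ ∈ CR m ↔ ∀ i, σ i.rev = (σ i).rev := by
  rw [Subgroup.mem_centralizer_singleton_iff]
  exact ⟨fun h i => Equiv.congr_fun h i, fun h => Equiv.ext h⟩

/-- the special linear group of the first half of the indices. -/
def LH (m : ℕ) (F : Type) [Field F] : Subgroup (SLm m F) := Subgroup.closure
  {g | ∃ (a b : Fin m) (h : a ≠ b) (c : F), a < a.rev ∧ b < b.rev ∧ g = transvection h c}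

/-- closed under the Bruhat decomposition. -/
def Cls (H : Subgroup (SLm m F)) : Prop :=
  ∀ x ∈ H, ∃ u ∈ US m F, ∃ n ∈ MonS m F, ∃ v ∈ US m F, u ∈ H ∧ n ∈ H ∧ v ∈ H ∧ x = u * n * v

/-- the involution and the sign of the form. -/
structure Fm (φ : F →+* F) (η : F) : Prop where
  inv : ∀ x, φ (φ x) = x
  sq : η * η = 1

namespace Fm
variable {φ : F →+* F} {η : F} (h : Fm φ η)
include h

lemma fix : φ η = η := by
  rcases mul_self_eq_one_iff.mp h.sq with e | e <;> simp [e]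

lemma ep_sq (i : Fin m) : ep m η i * ep m η i = 1 := by
  unfold ep
  split_ifs
  exacts [one_mul _, h.sq]

lemma ep_ne (i : Fin m) : ep m η i ≠ 0 := left_ne_zero_of_mul_eq_one (h.ep_sq i)

lemma ep_inv (i : Fin m) : (ep m η i)⁻¹ = ep m η i := inv_eq_of_mul_eq_one_left (h.ep_sq i)

lemma ep_fix (i : Fin m) : φ (ep m η i) = ep m η i := by
  unfold ep
  split_ifs
  exacts [map_one _, h.fix]

lemma ep_rev {i : Fin m} (hi : i ≠ i.rev) : ep m η i.rev = η * ep m η i := by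
  unfold ep
  rw [Fin.rev_rev]
  rcases lt_or_gt_of_ne hi with e | e
  · rw [if_neg (not_le.mpr e), if_pos e.le, mul_one]
  · rw [if_pos e.le, if_neg (not_le.mpr e), h.sq]

/-- the involution. -/
abbrev θ (m : ℕ) : SLm m F →* SLm m F := th φ (h.ep_ne (m := m))

lemma θ_tv {a b : Fin m} (hab : a ≠ b) (c : F) : h.θ m (transvection hab c) =
    transvection (Fin.rev_injective.ne hab.symm) (-(ep m η b.rev * φ c * ep m η a.rev)) := by
  rw [th_tv φ h.ep_ne hab (Fin.rev_injective.ne hab.symm) rfl rfl, h.ep_inv]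

lemma θθ_tv {a b : Fin m} (hab : a ≠ b) (ha : a ≠ a.rev) (hb : b ≠ b.rev) (c : F) :
    h.θ m (h.θ m (transvection hab c)) = transvection hab c := by
  rw [h.θ_tv, th_tv φ h.ep_ne _ hab (Fin.rev_rev a).symm (Fin.rev_rev b).symm, h.ep_inv]
  congr 1
  simp only [map_neg, map_mul, h.ep_fix, h.inv, h.ep_rev ha, h.ep_rev hb, h.fix]
  linear_combination (c * ep m η a * ep m η a * ep m η b * ep m η b) * h.sq +
    (c * ep m η b * ep m η b) * h.ep_sq a + c * h.ep_sq b

/-- the Levi embedding. -/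
def lam (g : SLm m F) : SLm m F := g * h.θ m g

/-- the Tits lifts of the simple reflections. -/
noncomputable def nn [NeZero m] (w : SLm m F) : ℕ → SLm m F
  | 0 => w
  | i + 1 => if e : ps m (i + 1) ≠ ps m i then h.lam (wm e 1) else 1

lemma nn_succ [NeZero m] (w : SLm m F) {i : ℕ} (hi : i + 1 < m / 2) :
    h.nn w (i + 1) = h.lam (wm (ps_ne hi) 1) := dif_pos _

end Fm

lemma _root_.Pool.Agent.Lib.MP_1ae3da_al.SLI.Frm.fm {φ : F →+* F} {η d : F} (h : Frm φ η d) :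
    Fm φ η := ⟨h.inv, h.sq⟩

/-- the data on a group `H` of isometries. -/
structure Ins [NeZero m] (φ : F →+* F) (η : F) (z : Fˣ) (H : Subgroup (SLm m F)) (w : SLm m F) :
    Prop where
  fm : Fm φ η
  le : H ≤ Iso φ (JJ (ep m η))
  clo : Clo 1 1 H ⊤
  lev : ∀ (a b : Fin m) (e : a ≠ b) (c : F), a < a.rev → b < b.rev → fm.lam (transvection e c) ∈ H
  el : ∀ (a : Fin m) (e : a ≠ a.rev), el e z ∈ H
  w_mem : w ∈ H
  w_mon : IsMon w.1 (sw m 0)
  w_one : ∀ i : Fin m, i ≠ i.rev → i ≠ ps m 0 → i ≠ (ps m 0).rev → w.1 i i = 1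
  k3 : 3 ≤ m / 2

end Pool.Agent.Lib.MP_1ae3da_al.JI
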