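import Pool.Agent.Lib.MP_1ae3da_al.I.Tb
import Pool.Agent.Lib.MP_1ae3da_al.I.Qt
import Pool.Agent.Lib.MP_1ae3da_al.J.G6
import Pool.Agent.Lib.MP_1ae3da_al.Z.Cl7

/-! The inductive condition for the central quotients of `Sp_2n(q)` and `SU_n(q)`, `p ∣ q - 1`. -/

namespace Pool.Agent.Lib.MP_1ae3da_al.JI

open Matrix SLI JM

theorem frm_tb {F : Type} [Field F] [Finite F] {φ : F →+* F} {η d : F} (h : Frm φ η d) {m p r : ℕ}
    [hp : Fact p.Prime] [Fact r.Prime] [CharP F r] (k3 : 3 ≤ m / 2) (h2 : p ≠ 2) (hpr : p ≠ r)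
    {z : Fˣ} (hz : φ z = z) (z1 : z ≠ 1) (zp : z ^ p = 1)
    (hN : ∀ c : F, c * φ c = 1 → (∃ e, c ^ p ^ e = 1) → c = 1) {A Y : Type} [Group A] [Group Y]
    (e : h.G m ≃* A) {π : A →* Y} (hπ : Function.Surjective π) (hc : π.ker ≤ Subgroup.center A)
    (R : Sylow p Y) : ∃ (U : Sylow r Y) (N : Subgroup Y) (n : ℕ → Y), TB p (m / 2) U N n ∧
      (R : Subgroup Y) ≤ N := by
  have : NeZero m := ⟨by omega⟩
  have hI := frm_ins h hz k3
  obtain ⟨U, hU⟩ := hI.cz.syl (r := r)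
  have hT := hI.tb (iso_bc φ h.ep_ne) hp.out h2 z1 zp hpr hU
  have hk : (π.comp e.toMonoidHom).ker ≤ Subgroup.center (h.G m) := fun x hx =>
    Subgroup.mem_center_iff.mpr fun g => e.injective (by
      rw [map_mul, map_mul]
      exact Subgroup.mem_center_iff.mp (hc hx) _)
  exact hT.qall (hT.ind h2).1 (hπ.comp e.surjective) hk (fun x hx => hI.cen_one hN (hk hx)
    ((hI.cz.tor_iff hU).mp (hT.v.q_cen (hk hx)))) R

lemma val_small {p k a : ℕ} [hp : Fact p.Prime] (h2 : p ≠ 2) (hk : k < 3) (h0 : a ≠ 0)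
    (ha : p ∣ a) : padicValNat p k.factorial < padicValNat p a := by
  have h1 := one_le_padicValNat_of_dvd h0 ha
  have h3 := hp.out.two_le
  rw [padicValNat.eq_zero_of_not_dvd (by rw [hp.out.dvd_factorial]; omega)]
  exact h1

lemma cop_one {F : Type} [Monoid F] {c : F} {p a e : ℕ} (hp : p.Prime) (ha : ¬ p ∣ a)
    (h1 : c ^ a = 1) (h2 : c ^ p ^ e = 1) : c = 1 := by
  have := pow_gcd_eq_one.mpr ⟨h1, h2⟩
  rwa [(Nat.Coprime.pow_left e ((Nat.Prime.coprime_iff_not_dvd hp).mpr ha)).symm, pow_one] at this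

/-- the central quotients of `Sp_2n(q)`, `n ≥ 3`. -/
theorem sp_tb (F : Type) [Field F] [Fintype F] {k : ℕ} (hk : 3 ≤ k) (r p : ℕ) [Fact r.Prime]
    [CharP F r] [hp : Fact p.Prime] (h2 : p ≠ 2) (hq : p ∣ Fintype.card F - 1)
    (X : Type) [Group X] (π : symplecticGroup (Fin k) F →* X) (hπ : Function.Surjective π)
    (hc : π.ker ≤ Subgroup.center _) (R : Sylow p X) :
    ∃ (U : Sylow r X) (N : Subgroup X) (n : ℕ → X), TB p k U N n ∧ (R : Subgroup X) ≤ N := by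
  obtain ⟨z, z1, zp, -⟩ := ex_z (F := F) h2 dvd_rfl hq
  have := frm_tb (r := r) frm_sp (m := k + k) (by omega) h2 (ne_char hp.out hq) rfl z1 zp
    (fun c h1 ⟨e, he⟩ => cop_one (a := 2) hp.out
      (fun h => h2 ((Nat.prime_dvd_prime_iff_eq hp.out Nat.prime_two).mp h))
      (by rw [pow_two]; exact h1) he) (spIso k F) hπ hc R
  rwa [show (k + k) / 2 = k by omega] at this

/-- the central quotients of `SU_m(q)`, `m ≥ 6`. -/
theorem su_tb (F : Type) [Field F] [Fintype F] [StarRing F] {q : ℕ}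
    (hq : Fintype.card F = q ^ 2) (hs : ∀ x : F, star x = x ^ q) {m : ℕ} (hm : 3 ≤ m / 2)
    (r p : ℕ) [Fact r.Prime] [CharP F r] [hp : Fact p.Prime] (h2 : p ≠ 2) (hv : p ∣ q - 1)
    (X : Type) [Group X] (π : specialUnitaryGroup (Fin m) F →* X) (hπ : Function.Surjective π)
    (hc : π.ker ≤ Subgroup.center _) (R : Sylow p X) :
    ∃ (U : Sylow r X) (N : Subgroup X) (n : ℕ → X), TB p (m / 2) U N n ∧ (R : Subgroup X) ≤ N := by
  obtain ⟨d, h, hx, hN⟩ := su_data hq hs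
  obtain ⟨e⟩ := su_iso h hx hN m
  have h1 := two_le_q hq
  obtain ⟨z, z1, zp, zq⟩ := ex_z (F := F) (q := q - 1) h2 (card_sub hq ▸ dvd_mul_left _ _) hv
  refine frm_tb h hm h2 (ne_char hp.out (card_sub hq ▸ hv.mul_left _)) ?_ z1 zp
    (fun c c1 ⟨e, he⟩ => cop_one (a := q + 1) hp.out (fun c2 => h2 ?_) ?_ he) e hπ hc R
  · rw [starRingEnd_apply, hs, ← Units.val_pow_eq_pow_val, ← Nat.sub_add_cancel (by omega : 1 ≤ q),
      pow_succ, zq, one_mul]
  · have := Nat.dvd_sub c2 hv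
    rw [show q + 1 - (q - 1) = 2 by omega] at this
    exact (Nat.prime_dvd_prime_iff_eq hp.out Nat.prime_two).mp this
  · rwa [starRingEnd_apply, hs, ← pow_succ'] at c1

theorem sp_all (p : ℕ) (hp : p.Prime) (h2 : p ≠ 2) (K : Type) [Field K] [Finite K] (n : ℕ)
    (hn : 1 ≤ n) (hv : p ∣ Nat.card K - 1) (X : Type) [Group X]
    (π : symplecticGroup (Fin n) K →* X) (hπ : Function.Surjective π)
    (hk : π.ker ≤ Subgroup.center _) (R : Sylow p X) : ∃ N : Subgroup X, NSV.IndN p X R N := by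
  have : Fact p.Prime := ⟨hp⟩
  rcases Nat.lt_or_ge n 3 with c | c
  · have := Finite.one_lt_card (α := K)
    exact sp_ind p hp h2 K n hn (val_small h2 c (by omega) hv) X π hπ hk R
  have := Fintype.ofFinite K
  obtain ⟨r, hr⟩ := CharP.exists K
  have : Fact r.Prime := ⟨CharP.char_is_prime K r⟩
  have : Finite X := Finite.of_surjective π hπ
  rw [Nat.card_eq_fintype_card] at hv
  obtain ⟨U, N, s, h, hR⟩ := sp_tb K c r p h2 hv X π hπ hk R
  exact ⟨N, (h.ind h2).2 R hR⟩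

theorem su_all (p : ℕ) (hp : p.Prime) (h2 : p ≠ 2) (K : Type) [Field K] [Finite K] [StarRing K]
    (q : ℕ) (hq : Nat.card K = q ^ 2) (hs : ∀ x : K, star x = x ^ q) (n : ℕ) (hn : 2 ≤ n)
    (hv : p ∣ q - 1) (X : Type) [Group X] (π : specialUnitaryGroup (Fin n) K →* X)
    (hπ : Function.Surjective π) (hk : π.ker ≤ Subgroup.center _) (R : Sylow p X) :
    ∃ N : Subgroup X, NSV.IndN p X R N := by
  have : Fact p.Prime := ⟨hp⟩
  have := Fintype.ofFinite K
  have hq' := hq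
  rw [Nat.card_eq_fintype_card] at hq'
  rcases Nat.lt_or_ge (n / 2) 3 with c | c
  · have := two_le_q hq'
    exact su_ind p hp h2 K q hq hs n hn (val_small h2 c (by omega) hv) X π hπ hk R
  obtain ⟨r, hr⟩ := CharP.exists K
  have : Fact r.Prime := ⟨CharP.char_is_prime K r⟩
  have : Finite X := Finite.of_surjective π hπ
  obtain ⟨U, N, s, h, hR⟩ := su_tb K hq' hs c r p h2 hv X π hπ hk R
  exact ⟨N, (h.ind h2).2 R hR⟩

end Pool.Agent.Lib.MP_1ae3da_al.JI
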