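import Pool.Agent.Lib.MP_1ae3da_al.I.P1

/-! The Levi embedding. -/

namespace Pool.Agent.Lib.MP_1ae3da_al.JI

open Matrix SpecialLinearGroup SLI

variable {F : Type} [Field F] {m : ℕ}

lemma tv_LH {a b : Fin m} (e : a ≠ b) (ha : a < a.rev) (hb : b < b.rev) (c : F) :
    transvection e c ∈ LH m F := Subgroup.subset_closure ⟨a, b, e, c, ha, hb, rfl⟩

lemma wm_LH {a b : Fin m} (e : a ≠ b) (ha : a < a.rev) (hb : b < b.rev) (c : F) :
    wm e c ∈ LH m F :=
  mul_mem (mul_mem (tv_LH e ha hb _) (tv_LH e.symm hb ha _)) (tv_LH e ha hb _)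

lemma el_LH {a b : Fin m} (e : a ≠ b) (ha : a < a.rev) (hb : b < b.rev) (c : Fˣ) :
    el e c ∈ LH m F := by
  refine (Subgroup.closure_le _).mpr ?_ (el_clo e c)
  rintro _ (⟨x, rfl⟩ | ⟨x, rfl⟩)
  exacts [tv_LH e ha hb x, tv_LH e.symm hb ha x]

lemma lv_ne {a b : Fin m} (ha : a < a.rev) (hb : b < b.rev) : b ≠ a.rev := by
  rintro rfl
  rw [Fin.rev_rev] at hb
  exact lt_asymm ha hb

namespace Fm
variable {φ : F →+* F} {η : F} (h : Fm φ η)

lemma θ_comm {x y : SLm m F} (hx : x ∈ LH m F) (hy : y ∈ LH m F) : Commute (h.θ m x) y := by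
  induction hx using Subgroup.closure_induction with
  | mem x hx =>
    induction hy using Subgroup.closure_induction with
    | mem y hy =>
      obtain ⟨a, b, e, c, ha, hb, rfl⟩ := hx
      obtain ⟨a', b', e', c', ha', hb', rfl⟩ := hy
      rw [h.θ_tv]
      exact tv_comm _ _ (lv_ne ha ha').symm (lv_ne hb hb') _ _
    | one => exact Commute.one_right _
    | mul _ _ _ _ h1 h2 => exact h1.mul_right h2
    | inv _ _ h1 => exact h1.inv_right
  | one => rw [map_one]; exact Commute.one_left _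
  | mul _ _ _ _ h1 h2 => rw [map_mul]; exact h1.mul_left h2
  | inv _ _ h1 => rw [map_inv]; exact h1.inv_left

lemma lam_one : h.lam (1 : SLm m F) = 1 := by
  rw [lam, map_one, mul_one]

lemma lam_mul {x y : SLm m F} (hx : x ∈ LH m F) (hy : y ∈ LH m F) :
    h.lam (x * y) = h.lam x * h.lam y := by
  rw [lam, lam, lam, map_mul, mul_assoc x (h.θ m x), ← mul_assoc (h.θ m x), (h.θ_comm hx hy).eq]
  simp only [mul_assoc]

lemma lam_inv {x : SLm m F} (hx : x ∈ LH m F) : h.lam x⁻¹ = (h.lam x)⁻¹ := by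
  rw [eq_inv_iff_mul_eq_one, ← h.lam_mul (inv_mem hx) hx, inv_mul_cancel, h.lam_one]

lemma lam_U {x : SLm m F} (hx : x ∈ US m F) : h.lam x ∈ US m F := by
  exact mul_mem hx (th_U φ h.ep_ne x hx)

lemma lam_mon {x : SLm m F} {σ : Equiv.Perm (Fin m)} (hx : IsMon x.1 σ) :
    IsMon (h.lam x).1 (Fin.revPerm * σ * Fin.revPerm * σ) := by
  exact mon_mul hx (th_mon φ h.ep_ne hx)

lemma lam_tv {a b : Fin m} (e : a ≠ b) (ha : a < a.rev) (hb : b < b.rev) (c : F) :
    h.lam (transvection e c) ∈ Iso φ (JJ (ep m η)) := by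
  rw [← th_fix φ h.ep_ne, lam, map_mul, h.θθ_tv e ha.ne hb.ne]
  exact (h.θ_comm (tv_LH e ha hb c) (tv_LH e ha hb c)).eq

end Fm

namespace Ins
variable [NeZero m] {φ : F →+* F} {η : F} {z : Fˣ} {H : Subgroup (SLm m F)} {w : SLm m F}
  (h : Ins φ η z H w)
include h

lemma lam_mem {x : SLm m F} (hx : x ∈ LH m F) : h.fm.lam x ∈ H := by
  induction hx using Subgroup.closure_induction with
  | mem x hx =>
    obtain ⟨a, b, e, c, ha, hb, rfl⟩ := hx
    exact h.lev a b e c ha hb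
  | one => rw [h.fm.lam_one]; exact one_mem _
  | mul x y hx hy h1 h2 => rw [h.fm.lam_mul hx hy]; exact mul_mem h1 h2
  | inv x hx h1 => rw [h.fm.lam_inv hx]; exact inv_mem h1

lemma nn_mem (i : ℕ) : h.fm.nn w i ∈ H := by
  have hm : 2 ≤ m := by have := h.k3; omega
  cases i with
  | zero => exact h.w_mem
  | succ i =>
    rw [Fm.nn]
    split_ifs with e
    exacts [h.lam_mem (wm_LH e (ps_lt hm _) (ps_lt hm _) 1), one_mem _]

lemma nn_mon {i : ℕ} (hi : i < m / 2) : IsMon (h.fm.nn w i).1 (sw m i) := by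
  have hm : 2 ≤ m := by have := h.k3; omega
  cases i with
  | zero => exact h.w_mon
  | succ i =>
    have l := wm_LH (F := F) (ps_ne hi) (ps_lt hm _) (ps_lt hm _) 1
    have k := wm_mon (F := F) (ps_ne hi) one_ne_zero
    have := mon_mul (th_mon φ h.fm.ep_ne k) k
    rw [Equiv.mul_swap_eq_swap_mul, mul_assoc (Equiv.swap _ _) Fin.revPerm,
      (show (Fin.revPerm * Fin.revPerm : Equiv.Perm (Fin m)) = 1 from Equiv.ext Fin.rev_rev),
      mul_one] at this
    rw [h.fm.nn_succ w hi, Fm.lam, ← (h.fm.θ_comm l l).eq]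
    exact this

/-- the fixed positions that are not the middle have the entry `1`. -/
lemma nn_one {i : ℕ} (hi : i < m / 2) {x : Fin m} (h1 : sw m i x = x) (h2 : i = 0 → x ≠ x.rev) :
    (h.fm.nn w i).1 x x = 1 := by
  have hm : 2 ≤ m := by have := h.k3; omega
  cases i with
  | zero =>
    rw [sw] at h1
    refine h.w_one x (h2 rfl) ?_ ?_
    · rintro rfl
      rw [Equiv.swap_apply_left] at h1
      exact (ps_lt hm 0).ne' h1
    · rintro rfl
      rw [Equiv.swap_apply_right] at h1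
      exact (ps_lt hm 0).ne h1
  | succ i =>
    have a1 := ps_lt hm (i + 1)
    have a2 := ps_lt hm i
    have e := ps_ne hi
    rw [sw, Equiv.Perm.mul_apply] at h1
    have n1 : x ≠ ps m (i + 1) := by
      rintro rfl
      rw [Equiv.swap_apply_of_ne_of_ne a1.ne (lv_ne a2 a1), Equiv.swap_apply_left] at h1
      exact e h1.symm
    have n2 : x ≠ ps m i := by
      rintro rfl
      rw [Equiv.swap_apply_of_ne_of_ne (lv_ne a1 a2) a2.ne, Equiv.swap_apply_right] at h1
      exact e h1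
    have n3 : x.rev ≠ ps m (i + 1) := by
      intro k
      obtain rfl : x = (ps m (i + 1)).rev := by rw [← k, Fin.rev_rev]
      rw [Equiv.swap_apply_left, Equiv.swap_apply_of_ne_of_ne (lv_ne a2 a1).symm a2.ne'] at h1
      exact e (Fin.rev_injective h1).symm
    have n4 : x.rev ≠ ps m i := by
      intro k
      obtain rfl : x = (ps m i).rev := by rw [← k, Fin.rev_rev]
      rw [Equiv.swap_apply_right, Equiv.swap_apply_of_ne_of_ne a1.ne' (lv_ne a1 a2).symm] at h1
      exact e (Fin.rev_injective h1)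
    have k := wm_mon (F := F) e one_ne_zero
    have t := th_dg φ h.fm.ep_ne k (Equiv.swap_apply_of_ne_of_ne n3 n4)
    rw [wm_dg e one_ne_zero n3.symm n4.symm, map_one, mul_one] at t
    rw [h.fm.nn_succ w hi, Fm.lam, vmul, mon_l k, Equiv.swap_apply_of_ne_of_ne n1 n2,
      wm_dg e one_ne_zero n1.symm n2.symm, one_mul]
    exact t

lemma wey {n : SLm m F} (hn : n ∈ H) {ρ : Equiv.Perm (Fin m)} (hρ : IsMon n.1 ρ) : ρ ∈ CR m :=
  iso_wey φ h.fm.ep_ne (h.le hn) hρ

end Ins

end Pool.Agent.Lib.MP_1ae3da_al.JI
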