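import Pool.Agent.Lib.MP_1ae3da_al.I.Lv

/-! The rank one relation in the Levi subgroup. -/

namespace Pool.Agent.Lib.MP_1ae3da_al.JI

open Matrix SpecialLinearGroup SLI JM

variable {F : Type} [Field F] {m : ℕ}

lemma adj_mul {u v : SLm m F} (hu : u ∈ US m F) (hv : v ∈ US m F) {a b : Fin m}
    (hab : (b : ℕ) = a + 1) : (u * v).1 a b = u.1 a b + v.1 a b := by
  obtain ⟨u0, u1⟩ := mem_US'.mp hu
  obtain ⟨v0, v1⟩ := mem_US'.mp hv
  have ne : a ≠ b := fun e => by rw [e] at hab; omega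
  rw [vmul, Matrix.mul_apply, Fintype.sum_eq_add a b ne, u1, v1, one_mul, mul_one, add_comm]
  intro x hx
  rcases lt_or_gt_of_ne hx.1 with l | l
  · rw [u0 a x l, zero_mul]
  · rw [v0 x b, mul_zero]
    have := Fin.val_ne_of_ne hx.2
    rw [Fin.lt_def] at l ⊢
    omega

lemma wm_tv {a b : Fin m} (e : a ≠ b) (c : F) :
    wm e 1 * transvection e c * (wm e 1)⁻¹ = transvection e.symm (-c) := by
  rw [mul_inv_eq_iff_eq_mul]
  apply Subtype.ext
  simp only [vmul, tv_E, wm_E e one_ne_zero, mul_add, add_mul, mul_sub, sub_mul, mul_one, one_mul,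
    smul_mul_assoc, mul_smul_comm, single_mul_single_same, single_mul_single_of_ne _ _ _ _ e,
    single_mul_single_of_ne _ _ _ _ e.symm, smul_zero, add_zero, sub_zero]
  match_scalars <;> ring

lemma el_wm {a b y : Fin m} (e : a ≠ b) (e' : a ≠ y) (h : b ≠ y) (c : Fˣ) :
    el e' c * wm e 1 * (el e' c)⁻¹ = wm e (c : F) := by
  rw [mul_inv_eq_iff_eq_mul]
  apply Subtype.ext
  simp only [vmul, el_E, wm_E e one_ne_zero, wm_E e c.ne_zero, mul_add, add_mul, mul_sub, sub_mul,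
    mul_one, one_mul, smul_mul_assoc, mul_smul_comm, single_mul_single_same,
    single_mul_single_of_ne _ _ _ _ e, single_mul_single_of_ne _ _ _ _ e.symm,
    single_mul_single_of_ne _ _ _ _ e', single_mul_single_of_ne _ _ _ _ e'.symm,
    single_mul_single_of_ne _ _ _ _ h, single_mul_single_of_ne _ _ _ _ h.symm, smul_zero, add_zero,
    sub_zero]
  match_scalars <;> field_simp <;> ring

lemma on_adj [NeZero m] {i : ℕ} (hi : i + 1 < m / 2) : (ps m i : ℕ) = ps m (i + 1) + 1 := by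
  rw [ps_val, ps_val]
  omega

namespace Ins
variable [NeZero m] {φ : F →+* F} {η : F} {z : Fˣ} {H : Subgroup (SLm m F)} {w : SLm m F}
  (h : Ins φ η z H w)
include h

/-- an element with zero entry at the simple root stays unitriangular. -/
lemma conj_U {i : ℕ} (hi : i + 1 < m / 2) {b : SLm m F} (hb : b ∈ US m F) (hb' : b ∈ H)
    (h0 : b.1 (ps m (i + 1)) (ps m i) = 0) :
    h.fm.nn w (i + 1) * b * (h.fm.nn w (i + 1))⁻¹ ∈ US m F := by
  have h1 : (b⁻¹).1 (ps m (i + 1)) (ps m i) = 0 := by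
    have e := adj_mul hb (inv_mem hb) (on_adj hi)
    rw [mul_inv_cancel, h0, zero_add] at e
    exact e.symm.trans (one_apply_ne (ps_ne hi))
  have h2 : b.1 (ps m i).rev (ps m (i + 1)).rev = 0 := by
    rw [← (th_fix φ h.fm.ep_ne).mpr (h.le hb'), th_val, Fin.rev_rev, Fin.rev_rev, h1, map_zero,
      mul_zero, zero_mul]
  have sq : ∀ x, sw m (i + 1) (sw m (i + 1) x) = x := fun x => Equiv.congr_fun (sw_sq hi) x
  have hn := mon_inv (h.nn_mon hi)
  rw [inv_eq_of_mul_eq_one_right (sw_sq hi)] at hn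
  refine mem_US'.mpr ⟨fun x y l => ?_, fun x => ?_⟩
  · have e := conj_zero hn (u := b) (i := sw m (i + 1) x) (j := sw m (i + 1) y)
    rw [inv_inv, sq, sq] at e
    refine e.mpr ?_
    rcases lt_or_gt_of_ne ((sw m (i + 1)).injective.ne l.ne') with l' | l'
    · rcases sw_inv hi l' (by rwa [sq, sq]) with ⟨e1, e2⟩ | ⟨e1, e2⟩ <;> rw [e1, e2]
      exacts [h0, h2]
    · exact (mem_US'.mp hb).1 _ _ l'
  · have e := conj_dg hn b (sw m (i + 1) x)
    rw [inv_inv, sq] at e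
    exact e.trans ((mem_US'.mp hb).2 _)

lemma one {i : ℕ} (hi : i + 1 < m / 2) {u : SLm m F} (hu : u ∈ US m F) (hu' : u ∈ H) :
    h.fm.nn w (i + 1) * u * (h.fm.nn w (i + 1))⁻¹ ∈ US m F ∨
      ∃ s ∈ H, IsMon s.1 1 ∧ ∃ v ∈ US m F, ∃ v' ∈ US m F, v ∈ H ∧ v' ∈ H ∧
        h.fm.nn w (i + 1) * u * (h.fm.nn w (i + 1))⁻¹ = v * (s * h.fm.nn w (i + 1) * s⁻¹) * v' := by
  have k3 := h.k3
  have m2 : 2 ≤ m := by omega
  have e := ps_ne hi
  have lt : ps m (i + 1) < ps m i := Fin.lt_def.2 (by have := on_adj hi; omega)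
  have la := ps_lt m2 (i + 1)
  have lb := ps_lt m2 i
  have tU : ∀ x : F, h.fm.lam (transvection e x) ∈ US m F := fun x => h.fm.lam_U (tv_US lt x)
  have tL : ∀ x : F, transvection e x ∈ LH m F := tv_LH e la lb
  have wL : ∀ x : F, wm e x ∈ LH m F := wm_LH e la lb
  obtain ⟨c, hc⟩ : ∃ c, c = u.1 (ps m (i + 1)) (ps m i) := ⟨_, rfl⟩
  by_cases c0 : c = 0
  · exact Or.inl (h.conj_U hi hu hu' (hc.symm.trans c0))
  have hA : (h.fm.lam (transvection e c)).1 (ps m (i + 1)) (ps m i) = c := by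
    rw [Fm.lam, adj_mul (tv_US lt c) (th_U φ h.fm.ep_ne _ (tv_US lt c)) (on_adj hi), tv_val,
      h.fm.θ_tv, tv_E, Matrix.add_apply, one_apply_ne e, Matrix.smul_apply,
      single_apply_of_ne _ _ _ _ _ fun x => (lt.trans lb).ne' x.1]
    simp
  have hB : u * (h.fm.lam (transvection e c))⁻¹ ∈ US m F := mul_mem hu (inv_mem (tU c))
  have hB' : u * (h.fm.lam (transvection e c))⁻¹ ∈ H := mul_mem hu' (inv_mem (h.lam_mem (tL c)))
  have h0 := adj_mul hB (tU c) (on_adj hi)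
  rw [inv_mul_cancel_right, hA, ← hc, right_eq_add] at h0
  obtain ⟨j, ja, jb⟩ : ∃ j, ps m (i + 1) ≠ ps m j ∧ ps m i ≠ ps m j := by
    refine ⟨if i = 0 then 2 else 0, fun x => ?_, fun x => ?_⟩ <;>
    · have := congrArg Fin.val x
      rw [ps_val, ps_val] at this
      split_ifs at this <;> omega
  have eL := el_LH ja la (ps_lt m2 j) (Units.mk0 c⁻¹ (inv_ne_zero c0))
  have n1 := h.nn_mem (i + 1)
  refine Or.inr ⟨_, h.lam_mem eL, ?_, _, mul_mem (h.conj_U hi hB hB' h0) (tU (-c⁻¹)), _, tU (-c⁻¹),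
    mul_mem (mul_mem (mul_mem n1 hB') (inv_mem n1)) (h.lam_mem (tL _)), h.lam_mem (tL _), ?_⟩
  · have := h.fm.lam_mon (el_mon ja (Units.mk0 c⁻¹ (inv_ne_zero c0)))
    rwa [mul_one, mul_one, show (Fin.revPerm : Equiv.Perm (Fin m)) * Fin.revPerm = 1 from
      Equiv.ext Fin.rev_rev] at this
  · have k1 : transvection e.symm (-c) =
        transvection e (-c⁻¹) * wm e c⁻¹ * transvection e (-c⁻¹) := by
      rw [wm, inv_inv, ← transvection_inv e c⁻¹, mul_assoc, mul_inv_cancel_right,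
        inv_mul_cancel_left]
    have k2 : h.fm.lam (wm e 1) * h.fm.lam (transvection e c) * (h.fm.lam (wm e 1))⁻¹ =
        h.fm.lam (transvection e (-c⁻¹)) * h.fm.lam (wm e c⁻¹) *
          h.fm.lam (transvection e (-c⁻¹)) := by
      rw [← h.fm.lam_inv (wL 1), ← h.fm.lam_mul (wL 1) (tL c),
        ← h.fm.lam_mul (mul_mem (wL 1) (tL c)) (inv_mem (wL 1)), wm_tv, k1,
        h.fm.lam_mul (mul_mem (tL _) (wL _)) (tL _), h.fm.lam_mul (tL _) (wL _)]
    rw [h.fm.nn_succ w hi, ← h.fm.lam_inv eL, ← h.fm.lam_mul eL (wL 1),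
      ← h.fm.lam_mul (mul_mem eL (wL 1)) (inv_mem eL), el_wm e ja jb, Units.val_mk0,
      mul_assoc _ (h.fm.lam (transvection e (-c⁻¹))), mul_assoc _ (_ * h.fm.lam (wm e c⁻¹)), ← k2]
    group

end Ins

end Pool.Agent.Lib.MP_1ae3da_al.JI
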