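import Pool.Agent.Lib.MP_1ae3da_al.I.Df
import Pool.Agent.Lib.MP_1ae3da_al.J.Wm

/-! The simple reflections: walls, inversions, generation. -/

namespace Pool.Agent.Lib.MP_1ae3da_al.JI

open SLI

variable {m : ℕ} [NeZero m] {i : ℕ}

lemma sw_wv (hi : i < m / 2) (x : Fin m) : (sw m i x : ℕ) = wv m (m / 2 - 1 - i) x := by
  cases i with
  | zero => exact wv_mid (ps_val 0) (by omega) x
  | succ i => exact wv_side (ps_val _) (by rw [ps_val]; omega) (by omega) x

lemma sw_wall (hi : i < m / 2) : Wall (bw m (m / 2 - 1 - i)) (sw m i) (CR m) :=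
  wall_wv (by omega) (sw_wv hi)

lemma sw_sq (hi : i < m / 2) : sw m i * sw m i = 1 := (sw_wall hi).sq

lemma sw_cen (hi : i < m / 2) : sw m i ∈ CR m := wv_cen (by omega) (sw_wv hi)

/-- the inversions of the reflections `i > 0`. -/
lemma sw_inv (hi : i + 1 < m / 2) {x y : Fin m} (h1 : x < y)
    (h2 : sw m (i + 1) y < sw m (i + 1) x) :
    (x = ps m (i + 1) ∧ y = ps m i) ∨ (x = (ps m i).rev ∧ y = (ps m (i + 1)).rev) := by
  have := y.2
  rw [Fin.lt_def, sw_wv hi, sw_wv hi] at h2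
  rw [Fin.lt_def] at h1
  simp only [Fin.ext_iff, Fin.val_rev, ps_val]
  simp only [wv] at h2
  split_ifs at h2 <;> omega

lemma cen_gen : CR m ≤ Subgroup.closure (sw m '' Set.Iio (m / 2)) := by
  intro σ hσ
  refine walls_ind (k := m / 2) (b := fun i => bw m (m / 2 - 1 - i)) (w := sw m) (W := CR m)
    (fun _ hi => sw_wall hi) (fun _ hi => sw_cen hi) (fun _ _ h => bw_cov' rfl h)
    (fun τ => τ ∈ Subgroup.closure (sw m '' Set.Iio (m / 2))) (one_mem _) ?_ σ hσ
  intro i hi τ _ h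
  have h1 : sw m i ∈ Subgroup.closure (sw m '' Set.Iio (m / 2)) :=
    Subgroup.subset_closure ⟨i, hi, rfl⟩
  exact (Subgroup.mul_mem_cancel_right _ h1).mp h

end Pool.Agent.Lib.MP_1ae3da_al.JI
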