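import Pool.Agent.Lib.MP_1ae3da_al.J.Dd
import Pool.Agent.Lib.MP_1ae3da_al.I.Qt

/-! Split Tits systems of type `D` pass to quotients by central `p'`-subgroups. -/

namespace Pool.Agent.Lib.MP_1ae3da_al.JM

open SLI

variable {p r k : ℕ} {X Y : Type} [Group X] [Group Y] [Finite X] {U : Sylow r X} {N : Subgroup X}
  {n : ℕ → X} {g : MulAut X} [hp : Fact p.Prime] [hr : Fact r.Prime]

omit [Finite X] in
/-- an involution that keeps the kernel descends to the quotient. -/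
theorem qd_ex (gg : ∀ x, g (g x) = x) {π : X →* Y} (hπ : Function.Surjective π)
    (hg : ∀ x ∈ π.ker, g x ∈ π.ker) : ∃ g' : MulAut Y, ∀ x, g' (π x) = π (g x) := by
  let f : Y →* Y := π.liftOfSurjective hπ ⟨π.comp g.toMonoidHom, hg⟩
  have hf : ∀ x, f (π x) = π (g x) := fun x =>
    π.liftOfRightInverse_comp_apply _ _ ⟨π.comp g.toMonoidHom, hg⟩ x
  have ff : f.comp f = MonoidHom.id Y := MonoidHom.ext fun y => by
    obtain ⟨x, rfl⟩ := hπ y
    rw [MonoidHom.comp_apply, hf, hf, gg, MonoidHom.id_apply]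
  exact ⟨f.toMulEquiv f ff ff, hf⟩

omit [Finite X] in
/-- automorphisms keep the centre. -/
theorem qd_cen {x : X} (hx : x ∈ Subgroup.center X) : g x ∈ Subgroup.center X :=
  Subgroup.mem_center_iff.2 fun y => by
    obtain ⟨y, rfl⟩ := g.surjective y
    rw [← map_mul, ← map_mul, Subgroup.mem_center_iff.1 hx]

theorem TD.qmap (h : TD p k U N n g) {π : X →* Y} (hπ : Function.Surjective π)
    (hk : π.ker ≤ Subgroup.center X) (hk' : ∀ x ∈ π.ker, (∃ c, x ^ p ^ c = 1) → x = 1)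
    {g' : MulAut Y} (hg : ∀ x, g' (π x) = π (g x)) :
    TD p k (U.mapSurjective hπ) (N.map π) (fun i => π (n i)) g' := by
  have hT := BN.tor_map (U := U) (N := N) hπ hk
  have hkT : π.ker ≤ Tor U N := hk.trans h.v.q_cen
  have v := h.v.qmap hπ hk hk'
  have mT : ∀ t ∈ Tor U N, π t ∈ Tor (U.mapSurjective hπ) (N.map π) := fun t ht =>
    hT ▸ ⟨t, ht, rfl⟩
  have gg : ∀ y, g' (g' y) = y := fun y => by
    obtain ⟨x, rfl⟩ := hπ y
    rw [hg, hg, h.w.gg]
  have st : ∀ S : Subgroup X, (∀ x, g x ∈ S ↔ x ∈ S) → ∀ y, g' y ∈ S.map π ↔ y ∈ S.map π := by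
    intro S hS
    have a : ∀ y ∈ S.map π, g' y ∈ S.map π := by
      rintro _ ⟨x, hx, rfl⟩
      exact ⟨g x, (hS x).2 hx, (hg x).symm⟩
    exact fun y => ⟨fun e => gg y ▸ a _ e, a y⟩
  refine ⟨v, ⟨inf_le_left, v.nrm, h.w.k2, gg, hT ▸ st _ h.w.gT, st _ h.w.gN,
    by rw [hg, h.w.g1], fun i a b => by rw [hg, h.w.g2 i a b], fun i hi => ⟨_, h.w.mem i hi, rfl⟩,
    fun i hi => map_mul π _ _ ▸ mT _ (h.w.sq i hi), ?_, fun i j a b c => ?_, fun i a b => ?_,
    ?_, ?_⟩, h.k5, st _ h.gU, ?_, ?_, fun i hi => ?_⟩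
  · simpa only [map_mul] using congrArg π h.w.c0
  · simpa only [map_mul] using congrArg π (h.w.c1 i j a b c)
  · simpa only [map_mul] using congrArg π (h.w.b3 i a b)
  · refine (Subgroup.map_mono h.w.gen).trans ?_
    rw [MonoidHom.map_closure, Set.image_union, Set.image_image, hT]
    rfl
  · rw [hT, Subgroup.relIndex_map_map, sup_of_le_left hkT, sup_of_le_left (hkT.trans inf_le_left),
      h.w.card]
  · rintro i hi _ ⟨m, hm, rfl⟩ _ ⟨u, hu, rfl⟩
    obtain ⟨a, ha, t, ht, b, hb, e⟩ := h.tits i hi m hm u hu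
    exact ⟨π a, ⟨a, ha, rfl⟩, π t, mT t ht, π b, ⟨b, hb, rfl⟩,
      e.imp (fun e => by simpa only [map_mul] using congrArg π e)
        fun e => by simpa only [map_mul] using congrArg π e⟩
  · rintro i hi _ ⟨u, hu, rfl⟩
    refine (h.one i hi u hu).imp (fun e => ⟨_, e, by simp only [map_mul, map_inv]⟩) ?_
    rintro ⟨t, ht, a, ha, b, hb, e⟩
    exact ⟨π t, mT t ht, π a, ⟨a, ha, rfl⟩, π b, ⟨b, hb, rfl⟩,
      by simpa only [map_mul, map_inv] using congrArg π e⟩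
  · simpa only [map_mul, map_inv] using (h.cen i hi).map π

/-- every Sylow `p`-subgroup of the quotient lies in the `N` of such a system. -/
theorem TD.qall (h : TD p k U N n g) (h0 : ∃ R : Sylow p X, (R : Subgroup X) ≤ N) {π : X →* Y}
    (hπ : Function.Surjective π) (hk : π.ker ≤ Subgroup.center X)
    (hk' : ∀ x ∈ π.ker, (∃ c, x ^ p ^ c = 1) → x = 1) (hg : ∀ x ∈ π.ker, g x ∈ π.ker)
    (R : Sylow p Y) : ∃ (U' : Sylow r Y) (N' : Subgroup Y) (n' : ℕ → Y) (g' : MulAut Y),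
      TD p k U' N' n' g' ∧ (R : Subgroup Y) ≤ N' := by
  have : Finite Y := Finite.of_surjective π hπ
  obtain ⟨R₀, hR⟩ := h0
  obtain ⟨c, hc⟩ := MulAction.exists_smul_eq Y (R₀.mapSurjective hπ) R
  let ρ : X →* Y := (MulAut.conj c).toMonoidHom.comp π
  have hρ : Function.Surjective ρ := (MulAut.conj c).surjective.comp hπ
  have hkρ : ρ.ker = π.ker := by
    ext x
    exact map_eq_one_iff (MulAut.conj c) (MulAut.conj c).injective
  obtain ⟨g', hg'⟩ := qd_ex h.w.gg hρ (hkρ ▸ hg)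
  refine ⟨U.mapSurjective hρ, N.map ρ, _, g', h.qmap hρ (hkρ ▸ hk) (hkρ ▸ hk') hg', ?_⟩
  have : (R : Subgroup Y) = (R₀ : Subgroup X).map ρ := by
    rw [← hc, ← Subgroup.map_map]
    rfl
  exact this ▸ Subgroup.map_mono hR

end Pool.Agent.Lib.MP_1ae3da_al.JM
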