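import Pool.Agent.Lib.MP_1ae3da_al.I.Bd
import Pool.Agent.Lib.MP_1ae3da_al.I.On
import Pool.Agent.Lib.MP_1ae3da_al.J.Bv

/-! The split Tits system of a classical group. -/

namespace Pool.Agent.Lib.MP_1ae3da_al.JI

open Matrix SpecialLinearGroup SLI JM

variable {F : Type} [Field F] [Finite F] {m : ℕ} [NeZero m] {φ : F →+* F} {η : F} {z : Fˣ}
  {H : Subgroup (SLm m F)} {w : SLm m F} {p r : ℕ}

omit [Finite F] in
lemma Ins.cz (h : Ins φ η z H w) : Cz H z :=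
  ⟨h.clo.cl, h.clo.reg, fun _ hn _ hσ => mem_CR.mp (h.wey hn hσ), h.el⟩

omit [Finite F] in
lemma Ins.ex_mon (h : Ins φ η z H w) {σ : Equiv.Perm (Fin m)} (hσ : σ ∈ CR m) :
    ∃ n : H, n ∈ Subgroup.closure ((fun i => (⟨h.fm.nn w i, h.nn_mem i⟩ : H)) '' Set.Iio (m / 2)) ∧
      IsMon n.1.1 σ := by
  have h1 := cen_gen hσ
  clear hσ
  induction h1 using Subgroup.closure_induction with
  | mem x hx =>
    obtain ⟨i, hi, rfl⟩ := hx
    exact ⟨_, Subgroup.subset_closure ⟨i, hi, rfl⟩, h.nn_mon hi⟩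
  | one => exact ⟨1, one_mem _, mon_one⟩
  | mul x y _ _ h1 h2 =>
    obtain ⟨a, a1, a2⟩ := h1
    obtain ⟨b, b1, b2⟩ := h2
    exact ⟨b * a, mul_mem b1 a1, mon_mul b2 a2⟩
  | inv x _ h1 =>
    obtain ⟨a, a1, a2⟩ := h1
    exact ⟨a⁻¹, inv_mem a1, mon_inv a2⟩

theorem Ins.wb (h : Ins φ η z H w) {U : Sylow r H} (hU : (U : Subgroup H) = (US m F).subgroupOf H) :
    WB (m / 2) ((MonS m F).subgroupOf H) (Tor U ((MonS m F).subgroupOf H))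
      fun i => ⟨h.fm.nn w i, h.nn_mem i⟩ := by
  obtain ⟨b1, b2, b3⟩ := h.nn_br
  refine ⟨inf_le_left, h.cz.nrm hU, fun i hi => ⟨_, h.nn_mon hi⟩, fun i hi => ?_,
    ⟨fun i j h1 h2 => Subtype.ext (b1 i j h1 h2), fun i h1 h2 => Subtype.ext (b2 i h1 h2),
      fun h1 => Subtype.ext (b3 h1)⟩, ?_, h.cz.card hU fun σ hσ => ?_⟩
  · refine (h.cz.tor_iff hU).mpr ?_
    have := mon_mul (h.nn_mon hi) (h.nn_mon hi)
    rwa [sw_sq hi] at this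
  · rintro n ⟨σ, hσ⟩
    obtain ⟨a, a1, a2⟩ := h.ex_mon (h.wey n.2 hσ)
    rw [← inv_mul_cancel_right n a]
    exact mul_mem (Subgroup.subset_closure (Or.inl (h.cz.tor_div hU hσ a2)))
      (Subgroup.closure_mono Set.subset_union_right a1)
  · obtain ⟨a, -, a2⟩ := h.ex_mon (mem_CR.mpr hσ)
    exact ⟨a.1, a.2, a2⟩

theorem Ins.tb (h : Ins φ η z H w) (hB : Bc H (CR m)) (hp : p.Prime) (h2 : p ≠ 2) (z1 : z ≠ 1)
    (zp : z ^ p = 1) (hpr : p ≠ r) {U : Sylow r H} (hU : (U : Subgroup H) = (US m F).subgroupOf H) :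
    TB p (m / 2) U ((MonS m F).subgroupOf H) fun i => ⟨h.fm.nn w i, h.nn_mem i⟩ := by
  have hT := fun {t} => h.cz.tor_iff hU (t := t)
  have hu := fun {u} => Cz.mem_U hU (u := u)
  refine ⟨h.cz.bv hU hp h2 hpr z1 zp, h.wb hU, h.k3, fun i hi g hg u h1 => ?_,
    fun i h0 hi u h1 => ?_, fun i _ => ?_⟩
  · obtain ⟨v, v3, v1, t, t1, t2, v', v4, v2, e⟩ := (sw_wall hi).tits hB
      (h.nn_mem i) (h.nn_mon hi) g.2 hg u.2 (hu.mp h1)
    exact ⟨⟨v, v3⟩, hu.mpr v1, ⟨t, t1⟩, hT.mpr t2, ⟨v', v4⟩, hu.mpr v2,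
      e.imp Subtype.ext Subtype.ext⟩
  · obtain ⟨i, rfl⟩ : ∃ j, i = j + 1 := ⟨i - 1, by omega⟩
    refine (h.one hi (hu.mp h1) u.2).imp hu.mpr ?_
    rintro ⟨s, s1, s2, v, v1, v', v2, v3, v4, e⟩
    exact ⟨⟨s, s1⟩, hT.mpr s2, ⟨v, v3⟩, hu.mpr v1, ⟨v', v4⟩, hu.mpr v2, Subtype.ext e⟩
  · have e : h.fm.nn w 1 * h.fm.nn w 1 * h.fm.nn w 0 * (h.fm.nn w 1 * h.fm.nn w 1)⁻¹ *
        (h.fm.nn w 0)⁻¹ = 1 := by
      rw [h.sq_comm.eq]
      group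
    refine Subtype.ext ?_
    change _ * _ * _ * (_ * _)⁻¹ * _⁻¹ * h.fm.nn w i = h.fm.nn w i * (_ * _ * _ * (_ * _)⁻¹ * _⁻¹)
    exact (e ▸ Commute.one_left (h.fm.nn w i)).eq

omit [Finite F] in
lemma Ins.cen_one (h : Ins φ η z H w) (hN : ∀ c : F, c * φ c = 1 → (∃ e, c ^ p ^ e = 1) → c = 1)
    {x : H} (hx : x ∈ Subgroup.center H) (h1 : IsMon x.1.1 1) (he : ∃ e, x ^ p ^ e = 1) :
    x = 1 := by
  obtain ⟨e, he⟩ := he
  obtain ⟨n, -, hn⟩ := h.ex_mon (σ := Fin.revPerm) (mem_CR.mpr fun _ => rfl)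
  have e1 : n.1.1 * x.1.1 = x.1.1 * n.1.1 :=
    congrArg (fun y : H => y.1.1) (Subgroup.mem_center_iff.mp hx n)
  refine Subtype.ext (Subtype.ext ?_)
  ext i j
  show x.1.1 i j = (1 : Matrix (Fin m) (Fin m) F) i j
  by_cases c : i = j
  swap
  · rw [h1 i j (Ne.symm c), one_apply_ne c]
  subst c
  rw [one_apply_eq]
  refine hN _ ?_ ⟨e, ?_⟩
  · have a1 := th_dg φ h.fm.ep_ne h1 (a := i) rfl
    rw [(th_fix φ h.fm.ep_ne).mpr (h.le x.2)] at a1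
    have a2 := congrFun (congrFun e1 i) i.rev
    rw [mon_l hn, mon_l h1, mul_comm] at a2
    rwa [show x.1.1 i.rev i.rev = x.1.1 i i from mul_right_cancel₀ (mon_ne hn i) a2] at a1
  · rw [← (dg_pow h1 _).2, show x.1 ^ p ^ e = 1 from congrArg Subtype.val he]
    exact one_apply_eq i

theorem frm_ins {d : F} (h : Frm φ η d) (hz : φ z = z) (k3 : 3 ≤ m / 2) :
    Ins φ η z (h.G m) (wm (ps_lt (by omega) 0).ne d) := by
  have ha := (ps_lt (m := m) (by omega) 0).ne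
  have lo : transvection ha.symm (-d⁻¹) ∈ h.G m := by
    have := h.lg_mem (a := (ps m 0).rev) (by rw [Fin.rev_rev]; exact ha.symm) (c := -d⁻¹)
      (by rw [map_neg]; linear_combination -h.tr_inv)
    simpa only [Fin.rev_rev] using this
  have hC := (frm_cz h m hz).clo
  exact ⟨h.fm, le_rfl, ⟨hC.cl, hC.reg, hC.tor, fun _ _ _ _ => trivial, by simp⟩,
    fun a b e c h1 h2 => h.xx_mem e h1.ne h2.ne c, fun a e => el_iso e hz,
    mul_mem (mul_mem (h.lg_mem ha h.tr) lo) (h.lg_mem ha h.tr), wm_mon ha h.ne,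
    fun i _ h1 h2 => wm_dg ha h.ne h1.symm h2.symm, k3⟩

end Pool.Agent.Lib.MP_1ae3da_al.JI
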